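import Pool.Agent.H93.HQ.Targets

/-!
# (RAD) a gauge with power growth
-/

set_option autoImplicit false

namespace Pool.Agent.H12.HQ

open MeasureTheory Set Pool.Agent.H93.HQ
open scoped ENNReal

theorem ico_val (ν : Measure ℝ) (F : ℝ → ℝ≥0∞) (h0 : ν (Iic 0) = 0)
    (h1 : ∀ r, 0 < r → ν (Iio r) = F r) (hF : ∀ r, 0 < r → F r ≠ ⊤) (a b : ℝ) (hab : a < b) :
    ν (Ico a b) = (if b ≤ 0 then 0 else F b) - (if a ≤ 0 then 0 else F a) := by
  have hz : ∀ c : ℝ, c ≤ 0 → ν (Iio c) = 0 := fun c hc =>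
    measure_mono_null (fun x hx => le_trans (le_of_lt hx) hc) h0
  have hv : ∀ c : ℝ, ν (Iio c) = if c ≤ 0 then 0 else F c := by
    intro c
    split_ifs with hc
    · exact hz c hc
    · exact h1 c (not_le.mp hc)
  have hfin : ν (Iio a) ≠ ⊤ := by
    rw [hv a]
    split_ifs with hc
    · exact ENNReal.zero_ne_top
    · exact hF a (not_le.mp hc)
  have he : Ico a b = Iio b \ Iio a := by
    ext x
    simp only [mem_Ico, mem_sdiff, mem_Iio, not_lt]
    tauto
  rw [he, measure_sdiff (Iio_subset_Iio hab.le) measurableSet_Iio.nullMeasurableSet hfin,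
    hv a, hv b]

theorem pf_RAD : U_RAD := by
  intro α _ μ g w d S hg hw hd hS hpos hgr f hf
  set ν₁ : Measure ℝ := Measure.map g (μ.withDensity w) with hν₁
  set ν₂ : Measure ℝ := (S * ENNReal.ofReal d) •
    ((volume.restrict (Ioi (0 : ℝ))).withDensity (fun r => ENNReal.ofReal (r ^ (d - 1)))) with hν₂
  let F : ℝ → ℝ≥0∞ := fun r => S * ENNReal.ofReal (r ^ d)
  have hF : ∀ r, 0 < r → F r ≠ ⊤ := fun r _ => ENNReal.mul_ne_top hS ENNReal.ofReal_ne_top
  have hm1 : ∀ A : Set ℝ, MeasurableSet A → ν₁ A = ∫⁻ x in g ⁻¹' A, w x ∂μ := by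
    intro A hA
    rw [hν₁, Measure.map_apply hg hA, withDensity_apply _ (hg hA)]
  have hmm : Measurable (fun r : ℝ => ENNReal.ofReal (r ^ (d - 1))) := by fun_prop
  have hm2 : ∀ A : Set ℝ, MeasurableSet A → ν₂ A = (S * ENNReal.ofReal d) *
      ∫⁻ r in A ∩ Ioi 0, ENNReal.ofReal (r ^ (d - 1)) := by
    intro A hA
    rw [hν₂, Measure.smul_apply, withDensity_apply _ hA, Measure.restrict_restrict hA,
      smul_eq_mul]
  have hz1 : ν₁ (Iic 0) = 0 := by
    rw [hm1 _ measurableSet_Iic]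
    have : μ (g ⁻¹' Iic 0) = 0 := by
      rw [ae_iff] at hpos
      refine measure_mono_null ?_ hpos
      intro x hx
      simpa using hx
    rw [Measure.restrict_eq_zero.mpr this, lintegral_zero_measure]
  have hz2 : ν₂ (Iic 0) = 0 := by
    rw [hm2 _ measurableSet_Iic]
    have : Iic (0 : ℝ) ∩ Ioi 0 = ∅ := by
      ext x
      simp only [mem_inter_iff, mem_Iic, mem_Ioi, mem_empty_iff_false, iff_false, not_and, not_lt]
      exact fun h => h
    rw [this, Measure.restrict_empty, lintegral_zero_measure, mul_zero]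
  have hI1 : ∀ r, 0 < r → ν₁ (Iio r) = F r := by
    intro r hr
    rw [hm1 _ measurableSet_Iio]
    exact hgr r hr
  have hI2 : ∀ r, 0 < r → ν₂ (Iio r) = F r := by
    intro r hr
    rw [hm2 _ measurableSet_Iio]
    have e1 : Iio r ∩ Ioi (0 : ℝ) = Ioo 0 r := by
      ext x
      simp only [mem_inter_iff, mem_Iio, mem_Ioi, mem_Ioo]
      tauto
    have hii : IntervalIntegrable (fun t : ℝ => t ^ (d - 1)) volume 0 r :=
      intervalIntegral.intervalIntegrable_rpow' (by linarith)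
    have hio : IntegrableOn (fun t : ℝ => t ^ (d - 1)) (Ioo 0 r) volume :=
      ((intervalIntegrable_iff_integrableOn_Ioc_of_le hr.le).mp hii).mono_set Ioo_subset_Ioc_self
    have e2 : ∫⁻ t in Ioo (0 : ℝ) r, ENNReal.ofReal (t ^ (d - 1)) =
        ENNReal.ofReal (∫ t in Ioo (0 : ℝ) r, t ^ (d - 1)) := by
      rw [ofReal_integral_eq_lintegral_ofReal hio]
      rw [Filter.EventuallyLE, ae_restrict_iff' measurableSet_Ioo]
      exact Filter.Eventually.of_forall fun t ht => Real.rpow_nonneg ht.1.le _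
    have e3 : ∫ t in Ioo (0 : ℝ) r, t ^ (d - 1) = r ^ d / d := by
      rw [← integral_Ioc_eq_integral_Ioo, ← intervalIntegral.integral_of_le hr.le,
        integral_rpow (Or.inl (by linarith))]
      rw [show d - 1 + 1 = d by ring, Real.zero_rpow hd.ne', sub_zero]
    rw [e1, e2, e3]
    have e4 : ENNReal.ofReal d * ENNReal.ofReal (r ^ d / d) = ENNReal.ofReal (r ^ d) := by
      rw [← ENNReal.ofReal_mul hd.le]
      congr 1
      field_simp
    rw [mul_assoc, e4]
  have hloc : IsLocallyFiniteMeasure ν₁ := by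
    refine ⟨fun x => ⟨Iio (max x 0 + 1), Iio_mem_nhds ?_, ?_⟩⟩
    · have := le_max_left x 0
      linarith
    · have h2 : (0 : ℝ) < max x 0 + 1 := by
        have := le_max_right x 0
        linarith
      rw [hI1 _ h2]
      exact lt_top_iff_ne_top.mpr (hF _ h2)
  have heq : ν₁ = ν₂ := by
    apply Measure.ext_of_Ico
    intro a b hab
    rw [ico_val ν₁ F hz1 hI1 hF a b hab, ico_val ν₂ F hz2 hI2 hF a b hab]
  have hfg : Measurable (fun x => f (g x)) := hf.comp hg
  calc ∫⁻ x, w x * f (g x) ∂μ = ∫⁻ x, (w * fun x => f (g x)) x ∂μ := rfl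
    _ = ∫⁻ x, f (g x) ∂(μ.withDensity w) :=
        (lintegral_withDensity_eq_lintegral_mul μ hw hfg).symm
    _ = ∫⁻ r, f r ∂ν₁ := (lintegral_map hf hg).symm
    _ = ∫⁻ r, f r ∂ν₂ := by rw [heq]
    _ = (S * ENNReal.ofReal d) * ∫⁻ r, f r ∂((volume.restrict (Ioi (0 : ℝ))).withDensity
          (fun r => ENNReal.ofReal (r ^ (d - 1)))) := by
        rw [hν₂, lintegral_smul_measure, smul_eq_mul]
    _ = S * ENNReal.ofReal d * ∫⁻ r in Ioi (0 : ℝ), f r * ENNReal.ofReal (r ^ (d - 1)) := by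
        rw [lintegral_withDensity_eq_lintegral_mul _ hmm hf]
        congr 1
        apply lintegral_congr
        intro r
        simp only [Pi.mul_apply]
        ring

end Pool.Agent.H12.HQ
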